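import Pool.Agent.P8H70.TU.Stm2

/-!
# Package TU/INT (for helper70)
-/

set_option autoImplicit false

open Complex MeasureTheory Finset

namespace Pool.Agent.P8H88.TU2

open Pool.Agent.P8H70.TU
open Pool.Agent.P8H70.TR (tp)

theorem tp_cont (n : ℕ) (a : ℕ → ℂ) : Continuous (tp n a) := by
  unfold tp
  fun_prop

theorem tp_norm_le (n : ℕ) (a : ℕ → ℂ) (D : ℝ) (h : ∀ j ≤ n, ‖a j‖ ≤ D) (t : ℝ) :
    ‖tp n a t‖ ≤ ((n : ℝ) + 1) * D := by
  unfold tp
  refine (norm_sum_le _ _).trans ?_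
  have h1 : ∀ j ∈ range (n + 1), ‖a j * cexp ((j * t : ℝ) * I)‖ ≤ D := by
    intro j hj
    rw [norm_mul, Complex.norm_exp_ofReal_mul_I, mul_one]
    exact h j (by have := Finset.mem_range.1 hj; omega)
  refine (Finset.sum_le_sum h1).trans ?_
  rw [Finset.sum_const, Finset.card_range, nsmul_eq_mul]
  push_cast
  exact le_rfl

theorem tp_shift (n : ℕ) (c : ℕ → ℂ) (t : ℝ) :
    tp (3 * n) (fun j => (if n ≤ j ∧ j ≤ 2 * n then 1 else 0) * c j) t =
      cexp ((n * t : ℝ) * I) * tp n (fun j => c (n + j)) t := by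
  unfold tp
  have h1 : ∑ j ∈ range (3 * n + 1), (if n ≤ j ∧ j ≤ 2 * n then (1 : ℂ) else 0) * c j *
      cexp ((j * t : ℝ) * I) =
      ∑ j ∈ Finset.Ico n (n + (n + 1)), c j * cexp ((j * t : ℝ) * I) := by
    symm
    rw [← Finset.sum_subset (s₁ := Finset.Ico n (n + (n + 1))) (s₂ := range (3 * n + 1))]
    · refine Finset.sum_congr rfl fun j hj => ?_
      have := Finset.mem_Ico.1 hj
      rw [if_pos ⟨by omega, by omega⟩, one_mul]
    · intro j hj
      have := Finset.mem_Ico.1 hj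
      exact Finset.mem_range.2 (by omega)
    · intro j _ hj
      have : ¬ (n ≤ j ∧ j ≤ 2 * n) := by
        intro h
        exact hj (Finset.mem_Ico.2 ⟨h.1, by omega⟩)
      rw [if_neg this, zero_mul, zero_mul]
  rw [h1, Finset.sum_Ico_eq_sum_range, Nat.add_sub_cancel_left, Finset.mul_sum]
  refine Finset.sum_congr rfl fun j _ => ?_
  have h2 : cexp (((n + j : ℕ) * t : ℝ) * I) = cexp ((n * t : ℝ) * I) * cexp ((j * t : ℝ) * I) := by
    rw [← Complex.exp_add]
    congr 1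
    push_cast
    ring
  rw [h2]
  ring

theorem int : S_INT := by
  intro p D n c hp hD hc
  unfold Np N1
  have hb := tp_norm_le n (fun j => c (n + j)) D hc
  have h0 : 0 ≤ ((n : ℝ) + 1) * D := by positivity
  have h1 : ∀ t, ‖tp n (fun j => c (n + j)) t‖ ^ p ≤ (((n : ℝ) + 1) * D) ^ (p - 1) *
      ‖tp (3 * n) (fun j => (if n ≤ j ∧ j ≤ 2 * n then 1 else 0) * c j) t‖ := by
    intro t
    rw [tp_shift, norm_mul, Complex.norm_exp_ofReal_mul_I, one_mul]
    obtain ⟨x, hx⟩ : ∃ x, x = ‖tp n (fun j => c (n + j)) t‖ := ⟨_, rfl⟩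
    have hx0 : 0 ≤ x := hx ▸ norm_nonneg _
    have hxb := hb t
    rw [← hx] at hxb ⊢
    rcases hx0.eq_or_lt with h | h
    · rw [← h, Real.zero_rpow (by linarith), mul_zero]
    · have e : x ^ p = x ^ (p - 1) * x := by
        rw [← Real.rpow_add_one h.ne', sub_add_cancel]
      rw [e]
      exact mul_le_mul_of_nonneg_right (Real.rpow_le_rpow hx0 hxb (by linarith)) hx0
  have i1 : IntervalIntegrable (fun t => ‖tp n (fun j => c (n + j)) t‖ ^ p) volume 0
      (2 * Real.pi) :=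
    ((tp_cont n _).norm.rpow_const fun _ => Or.inr (by linarith)).intervalIntegrable _ _
  have i2 : IntervalIntegrable (fun t => (((n : ℝ) + 1) * D) ^ (p - 1) *
      ‖tp (3 * n) (fun j => (if n ≤ j ∧ j ≤ 2 * n then 1 else 0) * c j) t‖) volume 0
      (2 * Real.pi) :=
    (continuous_const.mul (tp_cont _ _).norm).intervalIntegrable _ _
  have h2 := intervalIntegral.integral_mono_on (by positivity) i1 i2 fun t _ => h1 t
  rw [intervalIntegral.integral_const_mul] at h2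
  have h3 : (0 : ℝ) ≤ (2 * Real.pi)⁻¹ := by positivity
  calc (2 * Real.pi)⁻¹ * ∫ t in (0 : ℝ)..(2 * Real.pi), ‖tp n (fun j => c (n + j)) t‖ ^ p
      ≤ (2 * Real.pi)⁻¹ * ((((n : ℝ) + 1) * D) ^ (p - 1) * ∫ t in (0 : ℝ)..(2 * Real.pi),
        ‖tp (3 * n) (fun j => (if n ≤ j ∧ j ≤ 2 * n then 1 else 0) * c j) t‖) :=
        mul_le_mul_of_nonneg_left h2 h3
    _ = _ := by ring

end Pool.Agent.P8H88.TU2
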